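import Mathlib.Logic.Basic
import Mathlib.Data.List.Count
import Mathlib.Data.Fintype.Card

/-!
# The number of queries of a symbol
-/

set_option autoImplicit false

namespace Pool.Agent.Helper99.NK

open Classical in
/-- How often the symbol `x` is queried in a computation with the list `l` of queries. -/
noncomputable def times {C : Type} (l : List C) (x : C) : ℕ := l.count x

theorem count_eq_times {C : Type} (i : BEq C) (h : @LawfulBEq C i) (l : List C) (x : C) :
    @List.count C i x l = times l x := by
  classical
  have h1 : i = @instBEqOfDecidableEq C (fun a b => Classical.propDecidable (a = b)) :=
    @lawful_beq_subsingleton C i _ h _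
  unfold times
  rw [h1]

end Pool.Agent.Helper99.NK
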