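import Pool.Agent.Helper99.NK.Num
import Pool.Agent.Helper74.RQ.Main
import Pool.Agent.Helper98.NK.Type
import Pool.Agent.Helper27.RQ.Perms

/-!
# NK / RQ: the choice of the parameters
-/

set_option autoImplicit false

namespace Pool.Agent.Helper99.NK

open Finset Pool.Agent.Helper19.NF Pool.Agent.Helper74.NW Pool.Agent.Helper99.NQ Pool.Agent.Helper43.NK
open Pool.Agent.Helper74.NE (fine fine_apply)
open Pool.Agent.Helper74.RQ (Rare)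
open Pool.Agent.Helper27.RQ (Spread most_perms)

/-- The number `h`. -/
theorem exists_h (q : ℕ) (hq : 2 ≤ q) (δ : ℝ) (hδ : 0 < δ) (hδ1 : 2 * δ ≤ 1 - 1 / q) (L : ℕ) (hL : 16 ≤ L)
    (hL2 : 8 / δ ≤ L) (hL3 : 2 * q ≤ L) :
    ∃ h : ℕ, 2 ≤ h ∧ h + 1 + 1 ≤ L ∧ L ≤ (h + 1) * q ∧ 1 / q + δ / 4 ≤ (h : ℝ) / L ∧
      ((h + 1 : ℕ) : ℝ) / L ≤ 1 / q + δ / 2 := by
  have hq0 : (0 : ℝ) < q := by exact_mod_cast (by omega : 0 < q)
  have hq2 : (2 : ℝ) ≤ q := by exact_mod_cast hq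
  have hL0 : (0 : ℝ) < L := by exact_mod_cast (by omega : 0 < L)
  have hL16 : (16 : ℝ) ≤ L := by exact_mod_cast hL
  have hL3' : (2 : ℝ) * q ≤ L := by exact_mod_cast hL3
  have hq1 : (1 : ℝ) / q ≤ 1 / 2 := one_div_le_one_div_of_le (by norm_num) hq2
  have hqp : (0 : ℝ) < 1 / q := by positivity
  have h8 : 8 ≤ δ * L := by
    rw [div_le_iff₀ hδ] at hL2
    linarith
  have h1 : (1 / (q : ℝ) + δ / 4) * L ≤ ⌈(1 / (q : ℝ) + δ / 4) * L⌉₊ := Nat.le_ceil _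
  have h2 : (⌈(1 / (q : ℝ) + δ / 4) * L⌉₊ : ℝ) < (1 / q + δ / 4) * L + 1 := Nat.ceil_lt_add_one (by positivity)
  refine ⟨⌈(1 / q + δ / 4) * L⌉₊, ?_, ?_, ?_, ?_, ?_⟩
  · have h3 : (2 : ℝ) ≤ (1 / q + δ / 4) * L := by
      have h4 : 2 ≤ 1 / (q : ℝ) * L := by
        rw [one_div, inv_mul_eq_div, le_div_iff₀ hq0]
        exact hL3'
      have h5 : 0 < δ / 4 * L := by positivity
      linarith
    exact_mod_cast h3.trans h1
  · have h3 : (⌈(1 / (q : ℝ) + δ / 4) * L⌉₊ : ℝ) + 1 < L := by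
      have h5 : (1 / (q : ℝ) + δ / 4) ≤ 5 / 8 := by linarith
      nlinarith
    have : ⌈(1 / (q : ℝ) + δ / 4) * L⌉₊ + 1 < L := by exact_mod_cast h3
    omega
  · have h3 : (L : ℝ) ≤ (⌈(1 / (q : ℝ) + δ / 4) * L⌉₊ + 1) * q := by
      have h5 : (1 / (q : ℝ) + δ / 4) * L * q = L + δ * L * q / 4 := by
        field_simp
      have h6 : 0 < δ * L * q / 4 := by positivity
      have h7 : (1 / (q : ℝ) + δ / 4) * L * q ≤ ⌈(1 / (q : ℝ) + δ / 4) * L⌉₊ * q :=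
        mul_le_mul_of_nonneg_right h1 hq0.le
      nlinarith
    exact_mod_cast h3
  · rw [le_div_iff₀ hL0]
    exact h1
  · rw [div_le_iff₀ hL0]
    push_cast
    nlinarith

/-- The numbers `e` and `T`. -/
theorem exists_e_T (q : ℕ) (hq : 2 ≤ q) (δ : ℝ) (hδ : 0 < δ) (N θ r w : ℕ) (hN : 16 / δ ≤ N)
    (hθ : (1 / q + δ) * N ≤ θ + 1) (hθN : θ ≤ N) (hw : 4 * r / δ ≤ w) :
    ∃ e T : ℕ, N + e ≤ θ + T ∧ T ≤ N ∧ 2 * (r * θ) + (e + 1) ≤ (w + 1) * (e + 1) ∧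
      (T : ℝ) / N ≤ 1 - 1 / q - δ / 2 + δ / 16 := by
  have hq0 : (0 : ℝ) < q := by exact_mod_cast (by omega : 0 < q)
  have hN0 : (0 : ℝ) < N := lt_of_lt_of_le (by positivity) hN
  have hqp : (0 : ℝ) < 1 / q := by positivity
  have h16 : 16 ≤ δ * N := by
    rw [div_le_iff₀ hδ] at hN
    linarith
  have h1 : (⌊δ * N / 2⌋₊ : ℝ) ≤ δ * N / 2 := Nat.floor_le (by positivity)
  have h2 : δ * N / 2 < ⌊δ * N / 2⌋₊ + 1 := Nat.lt_floor_add_one _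
  have h3 : ⌊δ * N / 2⌋₊ ≤ θ := by
    have h4 : (⌊δ * N / 2⌋₊ : ℝ) ≤ θ := by
      have h5 : 0 < 1 / (q : ℝ) * N := by positivity
      nlinarith
    exact_mod_cast h4
  refine ⟨⌊δ * N / 2⌋₊, N + ⌊δ * N / 2⌋₊ - θ, by omega, by omega, ?_, ?_⟩
  · have h5 : ((2 * (r * θ) : ℕ) : ℝ) ≤ ((w * (⌊δ * N / 2⌋₊ + 1) : ℕ) : ℝ) := by
      push_cast
      have h6 : (θ : ℝ) ≤ N := by exact_mod_cast hθN
      have h7 : 4 * (r : ℝ) ≤ w * δ := by
        rw [div_le_iff₀ hδ] at hw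
        exact hw
      have h8 : (0 : ℝ) ≤ r := Nat.cast_nonneg _
      have h9 : (0 : ℝ) ≤ w := Nat.cast_nonneg _
      calc 2 * ((r : ℝ) * θ) ≤ 2 * (r * N) := by gcongr
        _ = 4 * r * N / 2 := by ring
        _ ≤ w * δ * N / 2 := by gcongr
        _ = w * (δ * N / 2) := by ring
        _ ≤ w * (⌊δ * N / 2⌋₊ + 1) := mul_le_mul_of_nonneg_left h2.le h9
    have h6 : 2 * (r * θ) ≤ w * (⌊δ * N / 2⌋₊ + 1) := by exact_mod_cast h5
    rw [add_mul, one_mul]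
    omega
  · rw [div_le_iff₀ hN0, Nat.cast_sub (by omega)]
    push_cast
    nlinarith

section

variable {F : Type} [Field F] [Fintype F]

open Classical in
/-- All parameters: the bound for programs with rare symbols. -/
theorem rare_bound (δ : ℝ) (hδ : 0 < δ) (hδ1 : δ ≤ 1 - 1 / (Fintype.card F : ℝ)) (r : ℕ) :
    ∃ (C D M m W : ℕ) (_ : NeZero m), 9 ≤ D * m ∧ 1 < D ∧ 1 < M ∧ 9 * (M * m) ^ 2 ≤ C ∧ D * m ≤ C ∧
      16 / δ ≤ C ∧ ∀ a : ℕ, 1 ≤ a →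
      2 ^ (M * a) * Nat.card {g : Fin D → Equiv.Perm (Fin (M * a)) // ¬ Spread D (M * a) W a g} ≤
        Nat.card (Fin D → Equiv.Perm (Fin (M * a))) ∧
      ∀ g : Fin D → Equiv.Perm (Fin (M * a)), Spread D (M * a) W a g →
      ∀ (B : Type) [AddCommGroup B] [Module F B] [Fintype B] (x0 : Fin (M * a) × Fin m → B),
      Function.Injective x0 → ∀ (R : ℕ), 1 ≤ R → R ≤ 2 ^ a → C ≤ Fintype.card B →
      ∀ (S : ℕ) (P : NProg (B × Word D m B) F F S), S ≤ 2 ^ a →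
      (∀ I l z, P.Ends I l z → z = out g x0 (R + 1) I) →
      ∀ θ : ℕ, (1 / (Fintype.card F : ℝ) + δ) * Fintype.card (B × Word D m B) ≤ θ + 1 →
      θ ≤ Fintype.card (B × Word D m B) →
      (Nat.card {I // Rare P θ r R I} : ℝ) ≤
        (C * (a * R) ^ 2 / Fintype.card B + C / √(Fintype.card B) + 1 / 2 ^ a) *
          Nat.card (B × Word D m B → F) := by
  have hq2 : 2 ≤ Fintype.card F := Fintype.one_lt_card
  obtain ⟨w, hw⟩ : ∃ w : ℕ, w = ⌈4 * (r : ℝ) / δ⌉₊ := ⟨_, rfl⟩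
  have hw' : 4 * (r : ℝ) / δ ≤ w := by
    rw [hw]
    exact Nat.le_ceil _
  obtain ⟨M, μ, m, d, D', C, hM, hm, hd, hμ, hdμ, hμM, hC, hnum0, hnum⟩ :=
    numbers (Fintype.card F) hq2 (δ / 2) (by linarith) w
  have hmz : NeZero m := ⟨by omega⟩
  have hq0 : (0 : ℝ) < (Fintype.card F : ℝ) := by exact_mod_cast (by omega : 0 < Fintype.card F)
  obtain ⟨D, hD⟩ : ∃ D : ℕ, D = 9 * M ^ 2 * (w + 1) := ⟨_, rfl⟩
  have hM2 : 4 ≤ M ^ 2 := by nlinarith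
  have hD20 : 20 ≤ D := by
    rw [hD]
    nlinarith
  have hDm : D ≤ D * m := Nat.le_mul_of_pos_right _ (by omega)
  refine ⟨C + D * m + 9 * (M ^ 2 * m) ^ 2 + Fintype.card F * 2 ^ (2 * w + 2) + ⌈16 / δ⌉₊ + 2 * Fintype.card F + 16,
    D, M ^ 2, m, w + 1, hmz, by omega, by omega, by omega, by omega, by omega, ?_, fun a ha => ⟨?_, ?_⟩⟩
  · have h1 := Nat.le_ceil (16 / δ)
    have h2 : (⌈16 / δ⌉₊ : ℝ) ≤ ((C + D * m + 9 * (M ^ 2 * m) ^ 2 + Fintype.card F * 2 ^ (2 * w + 2) + ⌈16 / δ⌉₊ +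
      2 * Fintype.card F + 16 : ℕ) : ℝ) := by exact_mod_cast (by omega)
    exact h1.trans h2
  · rw [hD]
    exact most_perms M a (w + 1) (by omega) ha (by omega)
  intro g hg B _ _ _ x0 hx0 R hR hRa hCB S P hS hP θ hθ hθN
  set q := Fintype.card F with hqdef
  set k := Fintype.card B with hkdef
  set L := Fintype.card (Word D m B) with hLdef
  set N := Fintype.card (B × Word D m B) with hNdef
  obtain ⟨C', hC'⟩ : ∃ C' : ℕ, C' = C + D * m + 9 * (M ^ 2 * m) ^ 2 + q * 2 ^ (2 * w + 2) + ⌈16 / δ⌉₊ +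
    2 * q + 16 := ⟨_, rfl⟩
  rw [← hC'] at hCB ⊢
  have c0 : Fin D × Fin m := (⟨0, by omega⟩, 0)
  have hkL : k ≤ L := by
    rw [hLdef, Fintype.card_fun]
    refine Nat.le_self_pow ?_ _
    have : Nonempty (Fin D × Fin m) := ⟨c0⟩
    exact Fintype.card_ne_zero
  have hLN : L ≤ N := by
    rw [hNdef, Fintype.card_prod]
    exact Nat.le_mul_of_pos_left _ (by omega)
  have h16 : 16 / δ ≤ (k : ℝ) := (Nat.le_ceil _).trans (by exact_mod_cast (by omega : ⌈16 / δ⌉₊ ≤ k))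
  have hkL' : (k : ℝ) ≤ L := by exact_mod_cast hkL
  have hLN' : (L : ℝ) ≤ N := by exact_mod_cast hLN
  have hk0 : (0 : ℝ) < k := by exact_mod_cast (by omega : 0 < k)
  have hL0 : (0 : ℝ) < L := by linarith
  have hN0 : (0 : ℝ) < N := by linarith
  obtain ⟨h, hh2, hhL, hLq, hhr, hhr2⟩ := exists_h q hq2 (δ / 2) (by linarith) (by linarith) L (by omega)
    (by
      have : 8 / (δ / 2) = 16 / δ := by field_simp; norm_num
      rw [this]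
      linarith) (by omega)
  obtain ⟨e, T, hTe, hTN, hK, hTr⟩ := exists_e_T q hq2 δ hδ N θ r w (by linarith) hθ hθN hw'
  obtain ⟨η, hη⟩ : ∃ η : ℝ, η = 1 + (1 - (T : ℝ) / N - ((h + 1 : ℕ) : ℝ) / L) / 2 := ⟨_, rfl⟩
  have hη1 : 1 + δ / 2 / 8 ≤ η := by
    rw [hη]
    linarith
  have hhr' : 1 / (q : ℝ) + δ / 2 / 4 ≤ ((h + 1 : ℕ) : ℝ) / L := by
    refine hhr.trans (div_le_div_of_nonneg_right ?_ hL0.le)
    exact_mod_cast Nat.le_succ h
  obtain ⟨n1, n2⟩ := hnum a ha (((h + 1 : ℕ) : ℝ) / L) ((h : ℝ) / L) η hhr' hhr hη1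
  have n3 := n2 (k : ℝ) (by exact_mod_cast (by omega : C ≤ k))
  rw [← hD] at n1 n3
  obtain ⟨n, hn⟩ : ∃ n : ℕ, n = M ^ 2 * a := ⟨_, rfl⟩
  have hM4 : 4 * a ≤ M ^ 2 * a := Nat.mul_le_mul_right _ hM2
  have hr0 : (0 : ℝ) ≤ (h : ℝ) / L := by positivity
  have hE0 : 0 ≤ errB (M ^ 2 * a) d w ((q ^ (2 * D')) ^ a) q ((h : ℝ) / L)
      ((k : ℝ) ^ (-((a * m : ℕ) : ℝ) / 2 ^ (2 * w + 3))) := by
    have := Real.rpow_nonneg hk0.le (-((a * m : ℕ) : ℝ) / 2 ^ (2 * w + 3))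
    unfold errB
    positivity
  have key := Pool.Agent.Helper74.RQ.main_bound_of (d := d) P g x0 hx0 c0 (h + 1) T a R θ e r (M * a) (M ^ 2 * a / 2)
    (w := w) hg (by omega) hP hhL hLq hθN hTe hK hTN η hη (by linarith)
    (Nat.mul_le_mul_right _ hM) (by omega) a hE0 ?_
  · refine key.trans (mul_le_mul_of_nonneg_right ?_ (Nat.cast_nonneg _))
    have hS' : (S : ℝ) ≤ 2 ^ a := by exact_mod_cast hS
    have hR' : (R : ℝ) ≤ 2 ^ a := by exact_mod_cast hRa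
    have e1 : ((R : ℝ) + 1) * ((M ^ 2 * a : ℕ) * m) ≤ 2 * (M ^ 2 * m : ℕ) * (a * R) := by
      have hR1 : (1 : ℝ) ≤ R := by exact_mod_cast hR
      have : (0 : ℝ) ≤ ((M ^ 2 * a : ℕ) * m : ℝ) := by positivity
      push_cast
      push_cast at this
      nlinarith
    have t1 : (((R : ℝ) + 1) * ((M ^ 2 * a : ℕ) * m)) ^ 2 / k ≤ C' * (a * R) ^ 2 / k := by
      refine div_le_div_of_nonneg_right ?_ hk0.le
      calc (((R : ℝ) + 1) * ((M ^ 2 * a : ℕ) * m)) ^ 2 ≤ (2 * (M ^ 2 * m : ℕ) * (a * R)) ^ 2 :=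
            pow_le_pow_left₀ (by positivity) e1 _
        _ = ((4 * (M ^ 2 * m) ^ 2 : ℕ) : ℝ) * (a * R) ^ 2 := by
            push_cast
            ring
        _ ≤ C' * (a * R) ^ 2 := by
            refine mul_le_mul_of_nonneg_right ?_ (by positivity)
            have : 4 * (M ^ 2 * m) ^ 2 ≤ 9 * (M ^ 2 * m) ^ 2 := Nat.mul_le_mul_right _ (by norm_num)
            exact_mod_cast (by omega : 4 * (M ^ 2 * m) ^ 2 ≤ C')
    have t3 : (q : ℝ) * 2 ^ (2 * w + 2) / √k ≤ C' / √k := by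
      refine div_le_div_of_nonneg_right ?_ (Real.sqrt_nonneg _)
      exact_mod_cast (by omega : q * 2 ^ (2 * w + 2) ≤ C')
    have herr0 : 0 ≤ err (M ^ 2 * a) m d a (M * a) (M ^ 2 * a / 2) q (((h + 1 : ℕ) : ℝ) / L) η := by
      have : 0 ≤ η := by linarith
      unfold err
      positivity
    have t2 : (R : ℝ) * S ^ 3 * 2 ^ (M ^ 2 * a) * ((D : ℝ) * m) ^ (2 * (M ^ 2 * a)) *
        err (M ^ 2 * a) m d a (M * a) (M ^ 2 * a / 2) q (((h + 1 : ℕ) : ℝ) / L) η ≤ 1 / 2 ^ (a + 1) := by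
      refine le_trans ?_ n1
      refine mul_le_mul_of_nonneg_right ?_ herr0
      refine mul_le_mul_of_nonneg_right ?_ (by positivity)
      refine mul_le_mul_of_nonneg_right ?_ (by positivity)
      calc (R : ℝ) * S ^ 3 ≤ 2 ^ a * (2 ^ a) ^ 3 := by gcongr
        _ = (2 ^ a) ^ 4 := by ring
    have t4 : (S : ℝ) ^ (w + 2) * 2 ^ (M ^ 2 * a) * ((D : ℝ) * m) ^ ((M ^ 2 * a) * (w + 1)) *
        errB (M ^ 2 * a) d w ((q ^ (2 * D')) ^ a) q ((h : ℝ) / L)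
          ((k : ℝ) ^ (-((a * m : ℕ) : ℝ) / 2 ^ (2 * w + 3))) ≤ 1 / 2 ^ (a + 1) := by
      refine le_trans ?_ n3
      refine mul_le_mul_of_nonneg_right ?_ hE0
      refine mul_le_mul_of_nonneg_right ?_ (by positivity)
      refine mul_le_mul_of_nonneg_right ?_ (by positivity)
      gcongr
    have t5 : (1 : ℝ) / 2 ^ (a + 1) + 1 / 2 ^ (a + 1) = 1 / 2 ^ a := by
      rw [pow_succ]
      field_simp
      norm_num
    linarith
  · intro σ V τ y γ hV hs hcb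
    refine Pool.Agent.Helper98.NK.type_bound P g x0 R σ V τ y γ hs h μ ((q ^ (2 * D')) ^ a) a ?_
      (Real.rpow_nonneg hk0.le _) hcb
    refine par_of hnum0 hμ hd hdμ ha ?_ hh2 (by omega) (by omega) hhr
    have h1 : 4 * μ ^ (w + 1) * a ≤ 3 * M ^ 2 * a := Nat.mul_le_mul_right _ hμM
    have h2 : 4 * (a * μ ^ (w + 1)) ≤ 4 * V.card := by
      calc 4 * (a * μ ^ (w + 1)) = 4 * μ ^ (w + 1) * a := by ring
        _ ≤ 3 * M ^ 2 * a := h1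
        _ = 3 * (M ^ 2 * a) := by ring
        _ ≤ _ := hV
    omega

end

end Pool.Agent.Helper99.NK
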