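import Pool.Agent.Helper70.NQ.Num
import Pool.Agent.Helper43.NK.Par
import Pool.Agent.Helper89.NK.Num

/-!
# NK: the numbers (C3)
-/

set_option autoImplicit false

namespace Pool.Agent.Helper99.NK

open Pool.Agent.Helper99.NQ Pool.Agent.Helper43.NK Filter
open Pool.Agent.Helper70.NQ (le_pow_self')

theorem pow_small6 {x : ℝ} (h0 : 0 ≤ x) (h : x ≤ 1 / 6) {a : ℕ} (ha : 1 ≤ a) : x ^ a ≤ 1 / 6 := by
  calc x ^ a ≤ x ^ 1 := pow_le_pow_of_le_one h0 (by linarith) ha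
    _ = x := pow_one x
    _ ≤ 1 / 6 := h

theorem part_le6 {G X t : ℝ} (hG : 0 ≤ G) (hX : 0 ≤ X) {a : ℕ} (ha : 1 ≤ a) (ht : t ≤ X ^ a) (h : 2 * G * X ≤ 1 / 6) :
    (2 * G) ^ a * t ≤ 1 / 6 := by
  calc (2 * G) ^ a * t ≤ (2 * G) ^ a * X ^ a := mul_le_mul_of_nonneg_left ht (by positivity)
    _ = (2 * G * X) ^ a := (mul_pow _ _ _).symm
    _ ≤ 1 / 6 := pow_small6 (by positivity) h ha

theorem core2 {q M M' m d a D : ℕ} {r η G : ℝ} (hq : 2 ≤ q) (hM' : 1 ≤ M') (hM : M = 2 * M') (ha : 1 ≤ a)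
    (hr : 1 / (q : ℝ) ≤ r) (hη : 1 ≤ η) (hqr : (q : ℝ) ^ 4 ≤ (q * r) ^ M)
    (hG : G = 16 * 2 ^ (M ^ 2) * (D * m) ^ (2 * M ^ 2))
    (h3 : 12 * G * (8 * 4 ^ (M ^ 2)) ≤ (q : ℝ) ^ (2 * d))
    (h1 : 12 * G * (2 * 2 ^ (5 * M ^ 2) * (q : ℝ) ^ (4 * d * M ^ 2)) ≤ η ^ m) :
    (2 ^ a) ^ 4 * 2 ^ (M ^ 2 * a) * ((D : ℝ) * m) ^ (2 * (M ^ 2 * a)) *
      err (M ^ 2 * a) m d a (M * a) (M ^ 2 * a / 2) q r η ≤ 1 / 2 ^ (a + 1) := by
  have hq2 : (2 : ℝ) ≤ q := by exact_mod_cast hq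
  have hq0 : (0 : ℝ) < q := by linarith
  have hr0 : 0 < r := lt_of_lt_of_le (by positivity) hr
  have hη0 : 0 < η := by linarith
  have hG0 : 0 ≤ G := by rw [hG]; positivity
  have hpre : (2 ^ a) ^ 4 * 2 ^ (M ^ 2 * a) * ((D : ℝ) * m) ^ (2 * (M ^ 2 * a)) ≤ G ^ a := by
    have e16 : (16 : ℝ) ^ a = (2 ^ a) ^ 4 := by
      rw [← pow_mul, mul_comm a, pow_mul]
      norm_num
    rw [hG, mul_pow (16 * 2 ^ (M ^ 2)) _ a, mul_pow 16 _ a, e16, ← pow_mul 2 (M ^ 2) a,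
      ← pow_mul _ (2 * M ^ 2) a, mul_assoc 2 (M ^ 2) a]
  have t1 : 2 ^ (5 * (M ^ 2 * a) + 1) * ((q : ℝ) / r) ^ (2 * d * (M ^ 2 * a)) / η ^ (m * a) ≤
      (2 * 2 ^ (5 * M ^ 2) * (q : ℝ) ^ (4 * d * M ^ 2) / η ^ m) ^ a := by
    have hqr2 : (q : ℝ) / r ≤ q ^ 2 := by
      rw [div_le_iff₀ hr0]
      have : 1 ≤ q * r := by
        rw [div_le_iff₀ hq0] at hr
        linarith
      nlinarith
    have e1 : (2 : ℝ) ^ (5 * (M ^ 2 * a) + 1) ≤ 2 ^ a * (2 ^ (5 * M ^ 2)) ^ a := by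
      rw [pow_succ, mul_comm, ← pow_mul, mul_assoc 5 (M ^ 2) a]
      exact mul_le_mul_of_nonneg_right (le_pow_self' (by norm_num) ha) (by positivity)
    have e2 : ((q : ℝ) / r) ^ (2 * d * (M ^ 2 * a)) ≤ ((q : ℝ) ^ (4 * d * M ^ 2)) ^ a := by
      calc ((q : ℝ) / r) ^ (2 * d * (M ^ 2 * a)) ≤ ((q : ℝ) ^ 2) ^ (2 * d * (M ^ 2 * a)) :=
            pow_le_pow_left₀ (by positivity) hqr2 _
        _ = ((q : ℝ) ^ (4 * d * M ^ 2)) ^ a := by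
            rw [← pow_mul, ← pow_mul]
            congr 1
            ring
    rw [div_pow (2 * 2 ^ (5 * M ^ 2) * (q : ℝ) ^ (4 * d * M ^ 2)) (η ^ m) a,
      mul_pow (2 * 2 ^ (5 * M ^ 2)) _ a, mul_pow 2 _ a, ← pow_mul η m a]
    apply div_le_div_of_nonneg_right _ (by positivity)
    exact mul_le_mul e1 e2 (by positivity) (by positivity)
  have hpow : ∀ N : ℕ, (q : ℝ) ^ (4 * N) ≤ (q * r) ^ (M * N) := by
    intro N
    rw [pow_mul, pow_mul]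
    exact pow_le_pow_left₀ (by positivity) hqr N
  have hj : M ^ 2 * a / 2 = M * (M' * a) := by
    have : M ^ 2 * a = 2 * (M * (M' * a)) := by
      calc M ^ 2 * a = M * M * a := by ring
        _ = M * (2 * M') * a := by rw [← hM]
        _ = 2 * (M * (M' * a)) := by ring
    omega
  have t2 : 8 * 2 ^ (M ^ 2 * a) * (q : ℝ) ^ (d * (M * a)) / ((q : ℝ) * r) ^ (d * (M ^ 2 * a / 2)) ≤
      (8 * 2 ^ (M ^ 2) / (q : ℝ) ^ (d * M)) ^ a := by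
    have e1 : (q : ℝ) ^ (2 * (d * (M * a))) ≤ (q * r) ^ (d * (M ^ 2 * a / 2)) := by
      have := hpow (d * (M' * a))
      rw [hj]
      calc (q : ℝ) ^ (2 * (d * (M * a))) = (q : ℝ) ^ (4 * (d * (M' * a))) := by
            congr 1
            rw [hM]
            ring
        _ ≤ (q * r) ^ (M * (d * (M' * a))) := this
        _ = (q * r) ^ (d * (M * (M' * a))) := by
            congr 1
            ring
    have e2 : (8 : ℝ) * 2 ^ (M ^ 2 * a) ≤ (8 * 2 ^ (M ^ 2)) ^ a := by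
      rw [mul_pow, ← pow_mul]
      exact mul_le_mul_of_nonneg_right (le_pow_self' (by norm_num) ha) (by positivity)
    calc 8 * 2 ^ (M ^ 2 * a) * (q : ℝ) ^ (d * (M * a)) / ((q : ℝ) * r) ^ (d * (M ^ 2 * a / 2))
        ≤ (8 * 2 ^ (M ^ 2)) ^ a * (q : ℝ) ^ (d * (M * a)) / (q : ℝ) ^ (2 * (d * (M * a))) := by gcongr
      _ = (8 * 2 ^ (M ^ 2) / (q : ℝ) ^ (d * M)) ^ a := by
          rw [div_pow, ← pow_mul, two_mul, pow_add, mul_assoc d M a]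
          field_simp
  have t3 : 8 * 4 ^ (M ^ 2 * a) * (q : ℝ) ^ (2 * d * a) / ((q : ℝ) * r) ^ (d * (M * a)) ≤
      (8 * 4 ^ (M ^ 2) / (q : ℝ) ^ (2 * d)) ^ a := by
    have e1 : (q : ℝ) ^ (2 * (2 * d * a)) ≤ (q * r) ^ (d * (M * a)) := by
      have := hpow (d * a)
      calc (q : ℝ) ^ (2 * (2 * d * a)) = (q : ℝ) ^ (4 * (d * a)) := by
            congr 1
            ring
        _ ≤ (q * r) ^ (M * (d * a)) := this
        _ = (q * r) ^ (d * (M * a)) := by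
            congr 1
            ring
    have e2 : (8 : ℝ) * 4 ^ (M ^ 2 * a) ≤ (8 * 4 ^ (M ^ 2)) ^ a := by
      rw [mul_pow, ← pow_mul]
      exact mul_le_mul_of_nonneg_right (le_pow_self' (by norm_num) ha) (by positivity)
    calc 8 * 4 ^ (M ^ 2 * a) * (q : ℝ) ^ (2 * d * a) / ((q : ℝ) * r) ^ (d * (M * a))
        ≤ (8 * 4 ^ (M ^ 2)) ^ a * (q : ℝ) ^ (2 * d * a) / (q : ℝ) ^ (2 * (2 * d * a)) := by gcongr
      _ = (8 * 4 ^ (M ^ 2) / (q : ℝ) ^ (2 * d)) ^ a := by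
          rw [div_pow, ← pow_mul, two_mul (2 * d * a), pow_add]
          field_simp
  have p1 : (2 * G) ^ a * (2 ^ (5 * (M ^ 2 * a) + 1) * ((q : ℝ) / r) ^ (2 * d * (M ^ 2 * a)) / η ^ (m * a)) ≤ 1 / 6 := by
    refine part_le6 hG0 (by positivity) ha t1 ?_
    rw [← mul_div_assoc, div_le_iff₀ (by positivity)]
    linarith
  have hqd : (q : ℝ) ^ (2 * d) ≤ q ^ (d * M) := by
    apply pow_le_pow_right₀ (by linarith)
    nlinarith
  have p2 : (2 * G) ^ a * (8 * 2 ^ (M ^ 2 * a) * (q : ℝ) ^ (d * (M * a)) / ((q : ℝ) * r) ^ (d * (M ^ 2 * a / 2))) ≤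
      1 / 6 := by
    refine part_le6 hG0 (by positivity) ha t2 ?_
    rw [← mul_div_assoc, div_le_iff₀ (by positivity)]
    have e1 : (2 : ℝ) ^ (M ^ 2) ≤ 4 ^ (M ^ 2) := pow_le_pow_left₀ (by norm_num) (by norm_num) _
    have e2 : G * 2 ^ (M ^ 2) ≤ G * 4 ^ (M ^ 2) := mul_le_mul_of_nonneg_left e1 hG0
    linarith
  have p3 : (2 * G) ^ a * (8 * 4 ^ (M ^ 2 * a) * (q : ℝ) ^ (2 * d * a) / ((q : ℝ) * r) ^ (d * (M * a))) ≤ 1 / 6 := by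
    refine part_le6 hG0 (by positivity) ha t3 ?_
    rw [← mul_div_assoc, div_le_iff₀ (by positivity)]
    linarith
  have herr0 : 0 ≤ err (M ^ 2 * a) m d a (M * a) (M ^ 2 * a / 2) q r η := by
    unfold err
    positivity
  rw [le_div_iff₀ (by positivity)]
  calc (2 ^ a) ^ 4 * 2 ^ (M ^ 2 * a) * ((D : ℝ) * m) ^ (2 * (M ^ 2 * a)) *
        err (M ^ 2 * a) m d a (M * a) (M ^ 2 * a / 2) q r η * 2 ^ (a + 1)
      ≤ G ^ a * err (M ^ 2 * a) m d a (M * a) (M ^ 2 * a / 2) q r η * 2 ^ (a + 1) :=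
        mul_le_mul_of_nonneg_right (mul_le_mul_of_nonneg_right hpre herr0) (by positivity)
    _ = 2 * ((2 * G) ^ a * err (M ^ 2 * a) m d a (M * a) (M ^ 2 * a / 2) q r η) := by
        rw [mul_pow, pow_succ]
        ring
    _ ≤ 1 := by
        unfold err
        rw [mul_add, mul_add]
        linarith


theorem pow_small4 {x : ℝ} (h0 : 0 ≤ x) (h : x ≤ 1 / 4) {a : ℕ} (ha : 1 ≤ a) : x ^ a ≤ 1 / 4 := by
  calc x ^ a ≤ x ^ 1 := pow_le_pow_of_le_one h0 (by linarith) ha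
    _ = x := pow_one x
    _ ≤ 1 / 4 := h

theorem coreB {q M m d a D D' w : ℕ} {r Q X : ℝ} (hq : 2 ≤ q) (ha : 1 ≤ a)
    (hr : 1 / (q : ℝ) ≤ r)
    (hX : X = 2 ^ (w + 2) * 2 ^ (M ^ 2) * (D * m) ^ (M ^ 2 * (w + 1)))
    (h1 : 8 * X * ((w + 1) * 2 ^ (M ^ 2)) ≤ (q : ℝ) ^ (2 * D'))
    (h2 : 16 * X * (8 ^ (M ^ 2) * (q : ℝ) ^ (2 * (d * M ^ 2))) ^ (w + 1) ≤ Q) (hQ : 1 ≤ Q)
    (hm : 2 ^ (2 * w + 3) ≤ m) :
    (2 ^ a) ^ (w + 2) * 2 ^ (M ^ 2 * a) * ((D : ℝ) * m) ^ ((M ^ 2 * a) * (w + 1)) *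
      errB (M ^ 2 * a) d w ((q ^ (2 * D')) ^ a) q r (Q ^ (-((a * m : ℕ) : ℝ) / 2 ^ (2 * w + 3))) ≤
      1 / 2 ^ (a + 1) := by
  have hq2 : (2 : ℝ) ≤ q := by exact_mod_cast hq
  have hq0 : (0 : ℝ) < q := by linarith
  have hr0 : 0 < r := lt_of_lt_of_le (by positivity) hr
  have hX0 : 0 ≤ X := by rw [hX]; positivity
  have hQ0 : 0 < Q := by linarith
  have hw1 : (1 : ℝ) ≤ (w : ℝ) + 1 := by
    have : (0 : ℝ) ≤ w := Nat.cast_nonneg _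
    linarith
  have hpre : (2 ^ a) ^ (w + 2) * 2 ^ (M ^ 2 * a) * ((D : ℝ) * m) ^ ((M ^ 2 * a) * (w + 1)) = X ^ a := by
    rw [hX, mul_pow (2 ^ (w + 2) * 2 ^ (M ^ 2)) _ a, mul_pow (2 ^ (w + 2)) _ a, ← pow_mul 2 (w + 2) a,
      ← pow_mul 2 (M ^ 2) a, ← pow_mul ((D : ℝ) * m) (M ^ 2 * (w + 1)) a, ← pow_mul 2 a (w + 2), mul_comm a (w + 2),
      show M ^ 2 * a * (w + 1) = M ^ 2 * (w + 1) * a by ring]
  rw [hpre]
  unfold errB
  push_cast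
  -- the first part
  have t1 : ((w : ℝ) + 1) * 2 ^ (M ^ 2 * a) / (((q : ℝ) ^ (2 * D')) ^ a) ≤
      (((w + 1) * 2 ^ (M ^ 2)) / (q : ℝ) ^ (2 * D')) ^ a := by
    rw [div_pow, mul_pow ((w : ℝ) + 1) _ a, ← pow_mul 2 (M ^ 2) a]
    apply div_le_div_of_nonneg_right _ (by positivity)
    exact mul_le_mul_of_nonneg_right (le_pow_self' hw1 ha) (by positivity)
  have p1 : X ^ a * (((w : ℝ) + 1) * 2 ^ (M ^ 2 * a) / (((q : ℝ) ^ (2 * D')) ^ a)) * 2 ^ a ≤ 1 / 4 := by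
    calc X ^ a * (((w : ℝ) + 1) * 2 ^ (M ^ 2 * a) / (((q : ℝ) ^ (2 * D')) ^ a)) * 2 ^ a
        ≤ X ^ a * (((w + 1) * 2 ^ (M ^ 2)) / (q : ℝ) ^ (2 * D')) ^ a * 2 ^ a := by
          gcongr
      _ = (X * (((w + 1) * 2 ^ (M ^ 2)) / (q : ℝ) ^ (2 * D')) * 2) ^ a := by
          rw [mul_pow (X * _) 2 a, mul_pow X _ a]
      _ ≤ 1 / 4 := by
          refine pow_small4 (by positivity) ?_ ha
          rw [← mul_div_assoc, div_mul_eq_mul_div, div_le_iff₀ (by positivity)]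
          linarith
  -- the second part
  have t2 : Q ^ (-((a : ℝ) * (m : ℝ)) / 2 ^ (2 * w + 3)) ≤ (1 / Q) ^ a := by
    have h3 : (a : ℝ) ≤ ((a : ℝ) * (m : ℝ)) / 2 ^ (2 * w + 3) := by
      rw [le_div_iff₀ (by positivity)]
      have : a * 2 ^ (2 * w + 3) ≤ a * m := Nat.mul_le_mul_left _ hm
      exact_mod_cast this
    rw [neg_div, one_div, inv_pow, ← Real.rpow_natCast Q a, ← Real.rpow_neg hQ0.le]
    exact Real.rpow_le_rpow_of_exponent_le hQ (by linarith)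
  have t3 : ((8 : ℝ) ^ (M ^ 2 * a) * (q : ℝ) ^ (d * (M ^ 2 * a)) / r ^ (d * (M ^ 2 * a))) ≤
      (8 ^ (M ^ 2) * (q : ℝ) ^ (2 * (d * M ^ 2))) ^ a := by
    have h4 : (q : ℝ) ^ (d * (M ^ 2 * a)) / r ^ (d * (M ^ 2 * a)) ≤ ((q : ℝ) ^ (2 * (d * M ^ 2))) ^ a := by
      rw [← div_pow]
      have h5 : (q : ℝ) / r ≤ q ^ 2 := by
        rw [div_le_iff₀ hr0]
        have : 1 ≤ q * r := by
          rw [div_le_iff₀ hq0] at hr
          linarith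
        nlinarith
      calc ((q : ℝ) / r) ^ (d * (M ^ 2 * a)) ≤ (q ^ 2) ^ (d * (M ^ 2 * a)) :=
            pow_le_pow_left₀ (by positivity) h5 _
        _ = _ := by
            rw [← pow_mul, ← pow_mul]
            congr 1
            ring
    calc ((8 : ℝ) ^ (M ^ 2 * a) * (q : ℝ) ^ (d * (M ^ 2 * a)) / r ^ (d * (M ^ 2 * a)))
        = 8 ^ (M ^ 2 * a) * ((q : ℝ) ^ (d * (M ^ 2 * a)) / r ^ (d * (M ^ 2 * a))) := by ring
      _ ≤ 8 ^ (M ^ 2 * a) * ((q : ℝ) ^ (2 * (d * M ^ 2))) ^ a := by gcongr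
      _ = _ := by
          rw [mul_pow _ ((q : ℝ) ^ (2 * (d * M ^ 2))), ← pow_mul 8 (M ^ 2) a]
  have p2 : X ^ a * (2 * Q ^ (-((a : ℝ) * (m : ℝ)) / 2 ^ (2 * w + 3)) *
      ((8 : ℝ) ^ (M ^ 2 * a) * (q : ℝ) ^ (d * (M ^ 2 * a)) / r ^ (d * (M ^ 2 * a))) ^ (w + 1)) * 2 ^ a ≤
      1 / 4 := by
    calc X ^ a * (2 * Q ^ (-((a : ℝ) * (m : ℝ)) / 2 ^ (2 * w + 3)) *
        ((8 : ℝ) ^ (M ^ 2 * a) * (q : ℝ) ^ (d * (M ^ 2 * a)) / r ^ (d * (M ^ 2 * a))) ^ (w + 1)) * 2 ^ a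
        ≤ X ^ a * (2 ^ a * (1 / Q) ^ a * ((8 ^ (M ^ 2) * (q : ℝ) ^ (2 * (d * M ^ 2))) ^ a) ^ (w + 1)) * 2 ^ a := by
          have h5 : (2 : ℝ) ≤ 2 ^ a := le_pow_self' (by norm_num) ha
          have h6 : (0 : ℝ) ≤ Q ^ (-((a : ℝ) * (m : ℝ)) / 2 ^ (2 * w + 3)) := Real.rpow_nonneg hQ0.le _
          gcongr
      _ = (X * (2 * (1 / Q) * (8 ^ (M ^ 2) * (q : ℝ) ^ (2 * (d * M ^ 2))) ^ (w + 1)) * 2) ^ a := by
          rw [mul_pow (X * _) 2 a, mul_pow X _ a, mul_pow (2 * (1 / Q)) _ a, mul_pow 2 (1 / Q) a,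
            ← pow_mul _ a (w + 1), ← pow_mul _ (w + 1) a, mul_comm a (w + 1)]
      _ ≤ 1 / 4 := by
          refine pow_small4 (by positivity) ?_ ha
          have h7 : X * (2 * (1 / Q) * (8 ^ (M ^ 2) * (q : ℝ) ^ (2 * (d * M ^ 2))) ^ (w + 1)) * 2 =
              4 * (X * (8 ^ (M ^ 2) * (q : ℝ) ^ (2 * (d * M ^ 2))) ^ (w + 1)) / Q := by
            field_simp
            ring
          rw [h7, div_le_iff₀ hQ0]
          linarith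
  rw [le_div_iff₀ (by positivity), pow_succ 2 a, mul_add, add_mul]
  nlinarith [p1, p2]

/-- An exponential beats a power. -/
theorem exists_c (K q N c0 : ℕ) : ∃ c : ℕ, c0 ≤ c ∧ 1 ≤ c ∧ K * (1 + c * q) ^ N ≤ 2 ^ c := by
  have h1 := tendsto_pow_const_div_const_pow_of_one_lt N (show (1 : ℝ) < 2 by norm_num)
  have h2 : ∀ᶠ n : ℕ in atTop, (n : ℝ) ^ N / 2 ^ n < 1 / (K * (1 + q) ^ N + 1) :=
    h1.eventually (gt_mem_nhds (by positivity))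
  obtain ⟨c, hc, hc0, hc1⟩ := (h2.and ((eventually_ge_atTop c0).and (eventually_ge_atTop 1))).exists
  refine ⟨c, hc0, hc1, ?_⟩
  rw [div_lt_div_iff₀ (by positivity) (by positivity), one_mul] at hc
  have h3 : (1 + c * q) ^ N ≤ (1 + q) ^ N * c ^ N := by
    rw [← mul_pow]
    refine Nat.pow_le_pow_left ?_ _
    rw [add_mul, one_mul, mul_comm c q]
    omega
  have h4 : ((K * ((1 + q) ^ N * c ^ N) : ℕ) : ℝ) ≤ ((2 ^ c : ℕ) : ℝ) := by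
    push_cast
    have h5 : (0 : ℝ) ≤ (c : ℝ) ^ N := by positivity
    nlinarith
  exact (Nat.mul_le_mul_left _ h3).trans (by exact_mod_cast h4)

/-- NK, C3: the numbers. -/
theorem numbers (q : ℕ) (hq : 2 ≤ q) (δ : ℝ) (hδ : 0 < δ) (w : ℕ) : ∃ M μ m d D' C : ℕ, 2 ≤ M ∧ 1 ≤ m ∧ 1 ≤ d ∧ 1 ≤ μ ∧
    d = μ * D' ∧ 4 * μ ^ (w + 1) ≤ 3 * M ^ 2 ∧ 1 ≤ C ∧
    (∀ L h : ℕ, 0 < L → 1 / q + δ / 4 ≤ (h : ℝ) / L →
      16 * (1 + d * q) * q ^ D' * L ^ d * q ^ (2 * D') ≤ (h * q) ^ d) ∧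
    ∀ a : ℕ, 1 ≤ a → ∀ r r' η : ℝ, 1 / q + δ / 4 ≤ r → 1 / q + δ / 4 ≤ r' →
      1 + δ / 8 ≤ η →
      (2 ^ a) ^ 4 * 2 ^ (M ^ 2 * a) * (((9 * M ^ 2 * (w + 1) : ℕ) : ℝ) * m) ^ (2 * (M ^ 2 * a)) *
        err (M ^ 2 * a) m d a (M * a) (M ^ 2 * a / 2) q r η ≤ 1 / 2 ^ (a + 1) ∧
      ∀ Q : ℝ, C ≤ Q →
      (2 ^ a) ^ (w + 2) * 2 ^ (M ^ 2 * a) * (((9 * M ^ 2 * (w + 1) : ℕ) : ℝ) * m) ^ ((M ^ 2 * a) * (w + 1)) *
        errB (M ^ 2 * a) d w ((q ^ (2 * D')) ^ a) q r' (Q ^ (-((a * m : ℕ) : ℝ) / 2 ^ (2 * w + 3))) ≤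
      1 / 2 ^ (a + 1) := by
  have hq2 : (2 : ℝ) ≤ q := by exact_mod_cast hq
  have hq0 : (0 : ℝ) < q := by linarith
  -- the parameter `M`
  obtain ⟨M', hM'1, hM'⟩ : ∃ M' : ℕ, 1 ≤ M' ∧ (q : ℝ) ^ 4 ≤ (1 + q * (δ / 4)) ^ M' := by
    have h1 : (1 : ℝ) < 1 + q * (δ / 4) := by
      have : 0 < q * (δ / 4) := by positivity
      linarith
    obtain ⟨N, hN⟩ := pow_unbounded_of_one_lt ((q : ℝ) ^ 4) h1
    exact ⟨max N 1, le_max_right _ _, hN.le.trans (pow_le_pow_right₀ h1.le (le_max_left _ _))⟩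
  obtain ⟨M1, hM1⟩ : ∃ M1 : ℕ, M1 = M' ^ (w + 1) := ⟨_, rfl⟩
  have hM11 : M' ≤ M1 := by
    rw [hM1]
    exact Nat.le_self_pow (by omega) _
  obtain ⟨M, hM⟩ : ∃ M : ℕ, M = 2 * M1 := ⟨_, rfl⟩
  obtain ⟨D, hD⟩ : ∃ D : ℕ, D = 9 * M ^ 2 * (w + 1) := ⟨_, rfl⟩
  -- the constants
  obtain ⟨G0, hG0⟩ : ∃ G0 : ℕ, G0 = 16 * 2 ^ (M ^ 2) * D ^ (2 * M ^ 2) := ⟨_, rfl⟩
  obtain ⟨K1, hK1⟩ : ∃ K1 : ℕ, K1 = 12 * G0 * (8 * 4 ^ (M ^ 2)) := ⟨_, rfl⟩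
  obtain ⟨K5, hK5⟩ : ∃ K5 : ℕ, K5 = 8 * (2 ^ (w + 2) * 2 ^ (M ^ 2) * D ^ (M ^ 2 * (w + 1))) *
    ((w + 1) * 2 ^ (M ^ 2)) := ⟨_, rfl⟩
  obtain ⟨c, hc, hc1, hc2⟩ := exists_c 16 (M' * q) 1 (M ^ 2 + K1 + M ^ 2 * (w + 1) + K5)
  obtain ⟨Q0, hQ0⟩ : ∃ Q0 : ℕ, Q0 = q ^ (4 * (M' * c) * M ^ 2) := ⟨_, rfl⟩
  obtain ⟨K3, hK3⟩ : ∃ K3 : ℕ, K3 = 12 * G0 * (2 * 2 ^ (5 * M ^ 2)) := ⟨_, rfl⟩
  -- the number of letters
  obtain ⟨t, ht1, ht⟩ : ∃ t : ℕ, 2 * w + 3 ≤ t ∧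
      (K3 : ℝ) * ((2 ^ t : ℕ) : ℝ) ^ (2 * M ^ 2 + Q0) ≤ (1 + δ / 8) ^ (2 ^ t) := by
    have h1 := tendsto_pow_const_div_const_pow_of_one_lt (2 * M ^ 2 + Q0) (show (1 : ℝ) < 1 + δ / 8 by linarith)
    have h2 : ∀ᶠ n : ℕ in atTop, (n : ℝ) ^ (2 * M ^ 2 + Q0) / (1 + δ / 8) ^ n < 1 / (K3 + 1) :=
      h1.eventually (gt_mem_nhds (by positivity))
    have h3 : Tendsto (fun t : ℕ => 2 ^ t) atTop atTop := tendsto_pow_atTop_atTop_of_one_lt (by norm_num)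
    obtain ⟨t, ht, ht1⟩ := ((h3.eventually h2).and (eventually_ge_atTop (2 * w + 3))).exists
    refine ⟨t, ht1, ?_⟩
    have h5 : (0 : ℝ) < (1 + δ / 8) ^ (2 ^ t) := by positivity
    rw [div_lt_div_iff₀ h5 (by positivity), one_mul] at ht
    have h4 : (0 : ℝ) ≤ ((2 ^ t : ℕ) : ℝ) ^ (2 * M ^ 2 + Q0) := by positivity
    linarith
  obtain ⟨m, hm⟩ : ∃ m : ℕ, m = 2 ^ t := ⟨_, rfl⟩
  rw [← hm] at ht
  have hm1 : 1 ≤ m := by
    rw [hm]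
    exact Nat.one_le_two_pow
  have hM2 : 2 ≤ M := by omega
  have ht0 : 0 < t := by omega
  have hM'c : c ≤ M' * c := Nat.le_mul_of_pos_left _ (by omega)
  obtain ⟨X, hX⟩ : ∃ X : ℕ, X = 2 ^ (w + 2) * 2 ^ (M ^ 2) * (D * m) ^ (M ^ 2 * (w + 1)) := ⟨_, rfl⟩
  have hqr4 : ∀ r : ℝ, 1 / q + δ / 4 ≤ r → (q : ℝ) ^ 4 ≤ (q * r) ^ M' := by
    intro r hr
    have h1 : 1 + q * (δ / 4) ≤ q * r := by
      have : q * (1 / q + δ / 4) ≤ q * r := mul_le_mul_of_nonneg_left hr hq0.le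
      rw [mul_add, mul_one_div_cancel hq0.ne'] at this
      exact this
    have h0 : (1 : ℝ) ≤ 1 + q * (δ / 4) := by
      have : 0 < q * (δ / 4) := by positivity
      linarith
    exact hM'.trans (pow_le_pow_left₀ (by linarith) h1 _)
  refine ⟨M, M', m, M' * (c * t), c * t, 16 * X * (8 ^ (M ^ 2) * q ^ (2 * (M' * (c * t) * M ^ 2))) ^ (w + 1) + 1,
    hM2, hm1, Nat.mul_pos (by omega) (Nat.mul_pos hc1 ht0), hM'1, rfl, ?_, by omega, ?_,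
    fun a ha r r' η hr hr' hη => ⟨?_, ?_⟩⟩
  · rw [← hM1, hM]
    have : 1 ≤ M1 := by omega
    nlinarith
  · intro L h hL hh
    have hL0 : (0 : ℝ) < L := by exact_mod_cast hL
    have h1 : 16 * (1 + M' * (c * t) * q) ≤ q ^ (c * t) := by
      have h3 : 1 + t * (c * (M' * q)) ≤ (1 + c * (M' * q)) ^ t := by
        have h8 : (0 : ℤ) ≤ ((c * (M' * q) : ℕ) : ℤ) := Int.natCast_nonneg _
        have h5 := one_add_mul_le_pow (show (-2 : ℤ) ≤ ((c * (M' * q) : ℕ) : ℤ) by linarith) t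
        have h6 : ((1 + t * (c * (M' * q)) : ℕ) : ℤ) ≤ (((1 + c * (M' * q)) ^ t : ℕ) : ℤ) := by
          push_cast
          push_cast at h5
          exact h5
        exact_mod_cast h6
      rw [pow_one] at hc2
      calc 16 * (1 + M' * (c * t) * q) = 16 * (1 + t * (c * (M' * q))) := by ring
        _ ≤ 16 * (1 + c * (M' * q)) ^ t := Nat.mul_le_mul_left _ h3
        _ ≤ 16 ^ t * (1 + c * (M' * q)) ^ t := Nat.mul_le_mul_right _ (Nat.le_self_pow (by omega) _)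
        _ = (16 * (1 + c * (M' * q))) ^ t := (mul_pow _ _ _).symm
        _ ≤ (2 ^ c) ^ t := Nat.pow_le_pow_left hc2 _
        _ ≤ (q ^ c) ^ t := Nat.pow_le_pow_left (Nat.pow_le_pow_left hq _) _
        _ = q ^ (c * t) := (pow_mul _ _ _).symm
    have h2 : (L : ℝ) ^ (M' * (c * t)) * q ^ (4 * (c * t)) ≤ ((h : ℝ) * q) ^ (M' * (c * t)) := by
      have h4 := hqr4 _ hh
      calc (L : ℝ) ^ (M' * (c * t)) * q ^ (4 * (c * t)) = (L : ℝ) ^ (M' * (c * t)) * ((q : ℝ) ^ 4) ^ (c * t) := by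
            rw [pow_mul (q : ℝ) 4]
        _ ≤ (L : ℝ) ^ (M' * (c * t)) * ((q * ((h : ℝ) / L)) ^ M') ^ (c * t) := by gcongr
        _ = ((h : ℝ) * q) ^ (M' * (c * t)) := by
            rw [← pow_mul, ← mul_pow]
            congr 1
            field_simp
    have h2' : L ^ (M' * (c * t)) * q ^ (4 * (c * t)) ≤ (h * q) ^ (M' * (c * t)) := by exact_mod_cast h2
    calc 16 * (1 + M' * (c * t) * q) * q ^ (c * t) * L ^ (M' * (c * t)) * q ^ (2 * (c * t))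
        ≤ q ^ (c * t) * q ^ (c * t) * L ^ (M' * (c * t)) * q ^ (2 * (c * t)) := by gcongr
      _ = L ^ (M' * (c * t)) * q ^ (4 * (c * t)) := by ring
      _ ≤ _ := h2'
  · rw [← hD]
    have hGm : (16 * 2 ^ (M ^ 2) * (D * m) ^ (2 * M ^ 2) : ℝ) = (G0 : ℝ) * (m : ℝ) ^ (2 * M ^ 2) := by
      rw [hG0]
      push_cast
      rw [mul_pow (D : ℝ)]
      ring
    have hm0 : (0 : ℝ) ≤ (m : ℝ) ^ (2 * M ^ 2) := by positivity
    have hmt : (m : ℝ) ^ (2 * M ^ 2) = 4 ^ (M ^ 2 * t) := by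
      rw [hm]
      push_cast
      rw [← pow_mul, show (4 : ℝ) = 2 ^ 2 by norm_num, ← pow_mul]
      congr 1
      ring
    have hq1r : 1 ≤ (q : ℝ) * r := by
      have : q * (1 / q + δ / 4) ≤ q * r := mul_le_mul_of_nonneg_left hr hq0.le
      rw [mul_add, mul_one_div_cancel hq0.ne'] at this
      have h9 : 0 < q * (δ / 4) := by positivity
      linarith
    refine core2 hq (by omega) hM ha (by linarith) (by linarith) ?_ hGm.symm ?_ ?_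
    · exact (hqr4 r hr).trans (pow_le_pow_right₀ hq1r (by omega))
    · have h1 : (K1 : ℝ) ≤ 4 ^ (K1 * t) := by
        have h2 : K1 ≤ 4 ^ (K1 * t) := by
          calc K1 ≤ 4 ^ K1 := (Nat.lt_pow_self (by norm_num)).le
            _ ≤ 4 ^ (K1 * t) := Nat.pow_le_pow_right (by norm_num) (Nat.le_mul_of_pos_right _ (by omega))
        exact_mod_cast h2
      calc 12 * ((G0 : ℝ) * (m : ℝ) ^ (2 * M ^ 2)) * (8 * 4 ^ (M ^ 2)) = K1 * (m : ℝ) ^ (2 * M ^ 2) := by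
            rw [hK1]
            push_cast
            ring
        _ ≤ 4 ^ (K1 * t) * 4 ^ (M ^ 2 * t) := by
            rw [hmt]
            exact mul_le_mul_of_nonneg_right h1 (by positivity)
        _ = 4 ^ ((M ^ 2 + K1) * t) := by
            rw [← pow_add]
            congr 1
            ring
        _ ≤ 4 ^ (M' * (c * t)) := by
            refine pow_le_pow_right₀ (by norm_num) ?_
            rw [← mul_assoc]
            exact Nat.mul_le_mul_right _ (by omega)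
        _ ≤ (q ^ 2) ^ (M' * (c * t)) := pow_le_pow_left₀ (by norm_num) (by nlinarith) _
        _ = (q : ℝ) ^ (2 * (M' * (c * t))) := (pow_mul _ _ _).symm
    · have h1 : (q : ℝ) ^ (4 * (M' * (c * t)) * M ^ 2) ≤ (m : ℝ) ^ Q0 := by
        have h2 : Q0 ≤ 2 ^ Q0 := (Nat.lt_two_pow_self).le
        have h3 : q ^ (4 * (M' * (c * t)) * M ^ 2) ≤ m ^ Q0 := by
          calc q ^ (4 * (M' * (c * t)) * M ^ 2) = Q0 ^ t := by
                rw [hQ0, ← pow_mul]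
                congr 1
                ring
            _ ≤ (2 ^ Q0) ^ t := Nat.pow_le_pow_left h2 t
            _ = m ^ Q0 := by
                rw [hm, ← pow_mul, ← pow_mul, mul_comm]
        exact_mod_cast h3
      calc 12 * ((G0 : ℝ) * (m : ℝ) ^ (2 * M ^ 2)) * (2 * 2 ^ (5 * M ^ 2) * (q : ℝ) ^ (4 * (M' * (c * t)) * M ^ 2))
          ≤ 12 * ((G0 : ℝ) * (m : ℝ) ^ (2 * M ^ 2)) * (2 * 2 ^ (5 * M ^ 2) * (m : ℝ) ^ Q0) := by gcongr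
        _ = K3 * (m : ℝ) ^ (2 * M ^ 2 + Q0) := by
            rw [hK3, pow_add]
            push_cast
            ring
        _ ≤ (1 + δ / 8) ^ m := ht
        _ ≤ η ^ m := pow_le_pow_left₀ (by linarith) hη _
  · intro Q hQ
    rw [← hD]
    have hC0 : (0 : ℝ) ≤ ((16 * X * (8 ^ (M ^ 2) * q ^ (2 * (M' * (c * t) * M ^ 2))) ^ (w + 1) : ℕ) : ℝ) :=
      Nat.cast_nonneg _
    have hQ1 : ((16 * X * (8 ^ (M ^ 2) * q ^ (2 * (M' * (c * t) * M ^ 2))) ^ (w + 1) : ℕ) : ℝ) + 1 ≤ Q := by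
      exact_mod_cast hQ
    refine coreB (X := X) hq ha (by linarith) (by rw [hX]; push_cast; ring) ?_ ?_ (by linarith) ?_
    · have h1 : 8 * X * ((w + 1) * 2 ^ (M ^ 2)) ≤ q ^ (2 * (c * t)) := by
        have h4 : K5 ≤ 2 ^ (K5 * t) :=
          (Nat.lt_two_pow_self).le.trans (Nat.pow_le_pow_right (by norm_num) (Nat.le_mul_of_pos_right _ ht0))
        calc 8 * X * ((w + 1) * 2 ^ (M ^ 2))
            = K5 * m ^ (M ^ 2 * (w + 1)) := by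
              rw [hX, hK5, mul_pow D m]
              ring
          _ ≤ 2 ^ (K5 * t) * (2 ^ t) ^ (M ^ 2 * (w + 1)) := by rw [hm]; exact Nat.mul_le_mul_right _ h4
          _ = 2 ^ ((K5 + M ^ 2 * (w + 1)) * t) := by
              rw [← pow_mul, ← pow_add]
              congr 1
              ring
          _ ≤ 2 ^ (2 * (c * t)) := by
              refine Nat.pow_le_pow_right (by norm_num) ?_
              rw [← mul_assoc]
              exact Nat.mul_le_mul_right _ (by omega)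
          _ ≤ q ^ (2 * (c * t)) := Nat.pow_le_pow_left hq _
      have h2 : ((8 * X * ((w + 1) * 2 ^ (M ^ 2)) : ℕ) : ℝ) ≤ ((q ^ (2 * (c * t)) : ℕ) : ℝ) := by
        exact_mod_cast h1
      push_cast at h2 ⊢
      exact h2
    · push_cast at hQ1
      linarith
    · rw [hm]
      exact Nat.pow_le_pow_right (by norm_num) ht1

open Classical in
/-- The structure of the numbers. -/
theorem par_of {F B : Type} [Field F] [Fintype F] [Fintype B] {n D m d w : ℕ} {μ D' h a v : ℕ} {δ : ℝ}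
    (hnum : ∀ L h : ℕ, 0 < L → 1 / (Fintype.card F : ℝ) + δ / 4 ≤ (h : ℝ) / L →
      16 * (1 + d * Fintype.card F) * Fintype.card F ^ D' * L ^ d * Fintype.card F ^ (2 * D') ≤
        (h * Fintype.card F) ^ d) (hμ : 1 ≤ μ) (hd : 1 ≤ d) (hdμ : d = μ * D') (ha : 1 ≤ a)
    (hv : a * μ ^ (w + 1) ≤ v) (hh : 2 ≤ h) (hhL : h ≤ Fintype.card (Word D m B))
    (hL : 0 < Fintype.card (Word D m B))
    (hr : 1 / (Fintype.card F : ℝ) + δ / 4 ≤ (h : ℝ) / Fintype.card (Word D m B)) :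
    Par n D m d w F B h μ ((Fintype.card F ^ (2 * D')) ^ a) a v where
  two_le := hh
  le_card := hhL
  d_pos := hd
  M_pos := hμ
  Z_pos := by
    have : 0 < Fintype.card F := Fintype.card_pos
    positivity
  chain := hv
  small := by
    intro K0 hK
    have hq : 0 < Fintype.card F := Fintype.card_pos
    refine Pool.Agent.Helper89.NK.hZ_of_node K0 (Fintype.card (Word D m B)) h μ D' (Fintype.card F ^ (2 * D')) a hμ
      ?_ (by positivity) ha hK ?_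
    · rw [Fintype.card_fin, hdμ]
    · rw [Fintype.card_fin]
      exact hnum _ _ hL hr

end Pool.Agent.Helper99.NK
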